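import Mathlib

set_option autoImplicit false

/-!
# Contraction semigroups on a Hilbert space
-/

open scoped InnerProductSpace NNReal

namespace Pool.Agent.Q98.BS

noncomputable section

/-- A contraction `C_0`-semigroup on `H`. -/
structure CSemi (H : Type) [NormedAddCommGroup H] [InnerProductSpace ℂ H] where
  /-- the operators -/
  T : ℝ≥0 → H →L[ℂ] H
  zero : T 0 = 1
  add : ∀ t s, T (t + s) = T t * T s
  cont : ∀ x, Continuous fun t => T t x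
  contr : ∀ t, ‖T t‖ ≤ 1

variable {H : Type} [NormedAddCommGroup H] [InnerProductSpace ℂ H]

/-- `sup_{0 ≤ t ≤ n} |⟨(T(t) - S(t)) u, v⟩|` -/
def supDiff (T S : CSemi H) (n : ℕ) (u v : H) : ℝ :=
  sSup ((fun t : ℝ≥0 => ‖⟪(T.T t - S.T t) u, v⟫_ℂ‖) '' Set.Icc 0 (n : ℝ≥0))

/-- The distance `∑_{n,i,j ≥ 1} 2^{-(i+j+n)} sup_{0≤t≤n} |⟨(T(t)-S(t))x_i,x_j⟩| / (‖x_i‖‖x_j‖)`;
the index `p = (n, i, j)` runs over triples of natural numbers `≥ 0` and stands for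
`(n + 1, i + 1, j + 1)`, the sequence `x_1, x_2, ...` is `x 0, x 1, ...`. -/
def semiDist (x : ℕ → H) (T S : CSemi H) : ℝ :=
  ∑' p : ℕ × ℕ × ℕ, (1 / 2 : ℝ) ^ ((p.2.1 + 1) + (p.2.2 + 1) + (p.1 + 1)) *
    (supDiff T S (p.1 + 1) (x p.2.1) (x p.2.2) / (‖x p.2.1‖ * ‖x p.2.2‖))

end

end Pool.Agent.Q98.BS
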