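import Pool.Agent.Q98.BS.Def

set_option autoImplicit false

/-!
# Unitary dilation of a contraction semigroup
-/

open scoped InnerProductSpace NNReal ComplexConjugate
open ContinuousLinearMap (adjoint)

namespace Pool.Agent.Q98.BS

noncomputable section

variable {H : Type} [NormedAddCommGroup H] [InnerProductSpace ℂ H] [CompleteSpace H]

/-- `T(r)` for `r ≥ 0` and `T(-r)*` for `r < 0` -/
def tau (T : CSemi H) (r : ℝ) : H →L[ℂ] H :=
  if 0 ≤ r then T.T r.toNNReal else adjoint (T.T (-r).toNNReal)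

theorem tau_nonneg (T : CSemi H) {r : ℝ} (hr : 0 ≤ r) : tau T r = T.T r.toNNReal := if_pos hr

theorem tau_neg (T : CSemi H) (r : ℝ) : tau T (-r) = adjoint (tau T r) := by
  unfold tau
  rcases lt_trichotomy r 0 with h | h | h
  · rw [if_pos (by linarith), if_neg (by linarith), ContinuousLinearMap.adjoint_adjoint]
  · subst h
    simp only [neg_zero, le_refl, if_true, Real.toNNReal_zero, T.zero]
    exact (ContinuousLinearMap.adjoint_id).symm
  · rw [if_neg (by linarith), if_pos h.le, neg_neg]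

theorem tau_zero (T : CSemi H) : tau T 0 = 1 := by
  rw [tau_nonneg T le_rfl, Real.toNNReal_zero, T.zero]

theorem tau_add (T : CSemi H) {r s : ℝ} (hr : 0 ≤ r) (hs : 0 ≤ s) :
    tau T (r + s) = tau T r * tau T s := by
  rw [tau_nonneg T hr, tau_nonneg T hs, tau_nonneg T (add_nonneg hr hs), Real.toNNReal_add hr hs,
    T.add]

theorem norm_tau (T : CSemi H) (r : ℝ) : ‖tau T r‖ ≤ 1 := by
  unfold tau
  split_ifs
  · exact T.contr _
  · rw [LinearIsometryEquiv.norm_map]
    exact T.contr _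

theorem norm_tau_apply (T : CSemi H) (r : ℝ) (x : H) : ‖tau T r x‖ ≤ ‖x‖ := by
  have := (tau T r).le_of_opNorm_le (norm_tau T r) x
  rwa [one_mul] at this

/-- **positivity** -/
theorem pos_aux (T : CSemi H) (f : ℝ → H) (s : Finset ℝ) : ∀ r : ℝ, (∀ a ∈ s, a ≤ r) →
    ‖∑ a ∈ s, adjoint (tau T (r - a)) (f a)‖ ^ 2 ≤
      (∑ a ∈ s, ∑ b ∈ s, ⟪f a, tau T (b - a) (f b)⟫_ℂ).re := by
  induction s using Finset.induction_on_max with
  | empty => intro r _; simp
  | insert c s hc ih =>
    intro r hr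
    have hcs : c ∉ s := fun h => lt_irrefl _ (hc c h)
    have hcr : c ≤ r := hr c (Finset.mem_insert_self _ _)
    set y := ∑ a ∈ s, adjoint (tau T (c - a)) (f a) with hy
    have h1 := ih c fun a ha => (hc a ha).le
    rw [← hy] at h1
    -- the vector
    have h2 : ∑ a ∈ insert c s, adjoint (tau T (r - a)) (f a) =
        adjoint (tau T (r - c)) (y + f c) := by
      rw [Finset.sum_insert hcs, map_add, hy, map_sum, add_comm]
      congr 1
      refine Finset.sum_congr rfl fun a ha => ?_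
      have h3 : tau T (r - a) = tau T (c - a) * tau T (r - c) := by
        rw [← tau_add T (sub_nonneg.2 (hc a ha).le) (sub_nonneg.2 hcr)]
        congr 1
        ring
      rw [h3]
      have h4 : adjoint (tau T (c - a) * tau T (r - c)) =
          adjoint (tau T (r - c)) * adjoint (tau T (c - a)) :=
        ContinuousLinearMap.adjoint_comp _ _
      rw [h4]
      rfl
    have h5 : ‖adjoint (tau T (r - c)) (y + f c)‖ ≤ ‖y + f c‖ := by
      rw [← tau_neg]
      exact norm_tau_apply T _ _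
    -- the sum
    have h6 : ∑ a ∈ insert c s, ∑ b ∈ insert c s, ⟪f a, tau T (b - a) (f b)⟫_ℂ =
        ∑ a ∈ s, ∑ b ∈ s, ⟪f a, tau T (b - a) (f b)⟫_ℂ + ⟪f c, f c⟫_ℂ + ⟪f c, y⟫_ℂ
          + ⟪y, f c⟫_ℂ := by
      rw [Finset.sum_insert hcs, Finset.sum_insert hcs]
      have e1 : ∑ b ∈ s, ⟪f c, tau T (b - c) (f b)⟫_ℂ = ⟪f c, y⟫_ℂ := by
        rw [hy, inner_sum]
        refine Finset.sum_congr rfl fun b _ => ?_
        rw [← tau_neg, neg_sub]
      have e2 : ∑ a ∈ s, ∑ b ∈ insert c s, ⟪f a, tau T (b - a) (f b)⟫_ℂ =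
          ∑ a ∈ s, ∑ b ∈ s, ⟪f a, tau T (b - a) (f b)⟫_ℂ + ⟪y, f c⟫_ℂ := by
        rw [hy, sum_inner, ← Finset.sum_add_distrib]
        refine Finset.sum_congr rfl fun a _ => ?_
        rw [Finset.sum_insert hcs, add_comm, ContinuousLinearMap.adjoint_inner_left]
      rw [e1, e2, sub_self, tau_zero, one_apply_eq_self]
      ring
    rw [h2, h6]
    have h7 : ‖y + f c‖ ^ 2 = ‖y‖ ^ 2 + 2 * (⟪y, f c⟫_ℂ).re + ‖f c‖ ^ 2 := by
      have := @norm_add_sq ℂ H _ _ _ y (f c)
      simpa using this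
    have h8 : (⟪f c, y⟫_ℂ).re = (⟪y, f c⟫_ℂ).re := by
      rw [← inner_conj_symm, Complex.conj_re]
    have h9 : (⟪f c, f c⟫_ℂ).re = ‖f c‖ ^ 2 := by
      have := @inner_self_eq_norm_sq ℂ H _ _ _ (f c)
      simpa using this
    have h10 : ‖adjoint (tau T (r - c)) (y + f c)‖ ^ 2 ≤ ‖y + f c‖ ^ 2 :=
      pow_le_pow_left₀ (norm_nonneg _) h5 2
    simp only [Complex.add_re]
    rw [h8, h9]
    linarith

/-! ### The space of the dilation -/

/-- finitely supported functions `ℝ → H`, the domain of the form -/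
def GE (_T : CSemi H) : Type := ℝ →₀ H

instance (T : CSemi H) : AddCommGroup (GE T) := Finsupp.instAddCommGroup
instance (T : CSemi H) : Module ℂ (GE T) := Finsupp.module ℝ H

/-- the form -/
def frm (T : CSemi H) (f g : ℝ →₀ H) : ℂ :=
  f.sum fun s u => g.sum fun t v => ⟪u, tau T (t - s) v⟫_ℂ

theorem frm_comm (T : CSemi H) (f g : ℝ →₀ H) : conj (frm T g f) = frm T f g := by
  unfold frm Finsupp.sum
  rw [map_sum, Finset.sum_congr rfl fun t _ => map_sum _ _ _, Finset.sum_comm]
  refine Finset.sum_congr rfl fun s _ => Finset.sum_congr rfl fun t _ => ?_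
  rw [inner_conj_symm, ← neg_sub t s, tau_neg, ContinuousLinearMap.adjoint_inner_left]

theorem frm_add_left (T : CSemi H) (f g h : ℝ →₀ H) :
    frm T (f + g) h = frm T f h + frm T g h :=
  Finsupp.sum_add_index' (fun s => by simp [Finsupp.sum])
    (fun s u v => by simp [Finsupp.sum, inner_add_left, Finset.sum_add_distrib])

theorem frm_smul_left (T : CSemi H) (r : ℂ) (f g : ℝ →₀ H) :
    frm T (r • f) g = conj r * frm T f g := by
  have h1 : frm T (r • f) g = f.sum fun s u => g.sum fun t v =>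
      ⟪r • u, tau T (t - s) v⟫_ℂ := Finsupp.sum_smul_index' (fun s => by simp [Finsupp.sum])
  rw [h1]
  unfold frm Finsupp.sum
  rw [Finset.mul_sum]
  refine Finset.sum_congr rfl fun s _ => ?_
  rw [Finset.mul_sum]
  refine Finset.sum_congr rfl fun t _ => ?_
  exact inner_smul_left _ _ _

theorem frm_nonneg (T : CSemi H) (f : ℝ →₀ H) : 0 ≤ (frm T f f).re := by
  obtain ⟨M, hM⟩ := (Finset.bddAbove f.support)
  have := pos_aux T f f.support M fun a ha => hM ha
  exact le_trans (by positivity) this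

/-- the pre-inner product -/
@[instance_reducible]
def preCore (T : CSemi H) : PreInnerProductSpace.Core ℂ (GE T) where
  inner f g := frm T f g
  conj_inner_symm f g := frm_comm T f g
  re_inner_nonneg f := frm_nonneg T f
  add_left f g h := frm_add_left T f g h
  smul_left f g r := frm_smul_left T r f g

instance (T : CSemi H) : SeminormedAddCommGroup (GE T) :=
  @InnerProductSpace.Core.toSeminormedAddCommGroup ℂ (GE T) _ _ _ (preCore T)

instance (T : CSemi H) : InnerProductSpace ℂ (GE T) :=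
  InnerProductSpace.ofCore (preCore T)

/-- the vector `δ_s x` -/
def del (T : CSemi H) (s : ℝ) (x : H) : GE T := (Finsupp.single s x : ℝ →₀ H)

theorem inner_del (T : CSemi H) (s t : ℝ) (x y : H) :
    ⟪del T s x, del T t y⟫_ℂ = ⟪x, tau T (t - s) y⟫_ℂ := by
  change frm T (Finsupp.single s x) (Finsupp.single t y) = _
  unfold frm
  rw [Finsupp.sum_single_index (by simp [Finsupp.sum]), Finsupp.sum_single_index (by simp)]

theorem norm_del (T : CSemi H) (s : ℝ) (x : H) : ‖del T s x‖ = ‖x‖ := by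
  have h1 : ‖del T s x‖ ^ 2 = ‖x‖ ^ 2 := by
    have a := @inner_self_eq_norm_sq ℂ (GE T) _ _ _ (del T s x)
    have b := @inner_self_eq_norm_sq ℂ H _ _ _ x
    rw [inner_del, sub_self, tau_zero] at a
    rw [← a, ← b]
    rfl
  exact (sq_eq_sq₀ (norm_nonneg _) (norm_nonneg _)).1 h1

/-- translation -/
def trs (T : CSemi H) (r : ℝ) : GE T →ₗᵢ[ℂ] GE T where
  toLinearMap := (Finsupp.lmapDomain H ℂ (fun s : ℝ => s + r) : (ℝ →₀ H) →ₗ[ℂ] (ℝ →₀ H))
  norm_map' f := by
    have key : ∀ f g : ℝ →₀ H, frm T (Finsupp.mapDomain (fun s : ℝ => s + r) f)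
        (Finsupp.mapDomain (fun s : ℝ => s + r) g) = frm T f g := by
      intro f g
      unfold frm
      rw [Finsupp.sum_mapDomain_index (by simp [Finsupp.sum])
        (by simp [Finsupp.sum, inner_add_left, Finset.sum_add_distrib])]
      refine Finsupp.sum_congr fun s _ => ?_
      rw [Finsupp.sum_mapDomain_index (by simp) (by simp [inner_add_right])]
      refine Finsupp.sum_congr fun t _ => ?_
      simp
    have h1 := @inner_self_eq_norm_sq ℂ (GE T) _ _ _ f
    have h2 := @inner_self_eq_norm_sq ℂ (GE T) _ _ _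
      (show GE T from (Finsupp.mapDomain (fun s : ℝ => s + r) (show ℝ →₀ H from f)))
    have h3 : ⟪(show GE T from (Finsupp.mapDomain (fun s : ℝ => s + r) (show ℝ →₀ H from f))),
      (show GE T from (Finsupp.mapDomain (fun s : ℝ => s + r) (show ℝ →₀ H from f)))⟫_ℂ =
      ⟪f, f⟫_ℂ := key f f
    rw [h3, h1] at h2
    exact ((sq_eq_sq₀ (norm_nonneg _) (norm_nonneg _)).1 h2).symm

theorem trs_del (T : CSemi H) (r s : ℝ) (x : H) : trs T r (del T s x) = del T (s + r) x :=
  Finsupp.mapDomain_single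

theorem ind_GE (T : CSemi H) {p : GE T → Prop} (f : GE T) (h0 : p 0)
    (hadd : ∀ f g, p f → p g → p (f + g)) (hdel : ∀ s x, p (del T s x)) : p f := by
  refine Finsupp.induction_linear (motive := fun f : ℝ →₀ H => p f) f h0
    (fun f g hf hg => hadd f g hf hg) (fun s x => hdel s x)

theorem trs_zero (T : CSemi H) (f : GE T) : trs T 0 f = f := by
  refine ind_GE T (p := fun f => trs T 0 f = f) f (map_zero _)
    (fun f g hf hg => by rw [map_add, hf, hg]) fun s x => ?_
  rw [trs_del, add_zero]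

theorem trs_trs (T : CSemi H) (r r' : ℝ) (f : GE T) : trs T r (trs T r' f) = trs T (r + r') f := by
  refine ind_GE T (p := fun f => trs T r (trs T r' f) = trs T (r + r') f) f
    (by simp only [map_zero]) (fun f g hf hg => by simp only [map_add, hf, hg]) fun s x => ?_
  rw [trs_del, trs_del, trs_del, add_assoc, add_comm r']

/-- strong continuity on the generators -/
theorem norm_del_sub (T : CSemi H) (s t : ℝ) (x : H) :
    ‖del T s x - del T t x‖ ^ 2 = 2 * (⟪x, x - tau T |t - s| x⟫_ℂ).re := by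
  have h := @norm_sub_sq ℂ (GE T) _ _ _ (del T s x) (del T t x)
  rw [h, norm_del, norm_del, inner_del]
  have h2 : (⟪x, tau T (t - s) x⟫_ℂ).re = (⟪x, tau T |t - s| x⟫_ℂ).re := by
    rcases abs_cases (t - s) with ⟨h3, _⟩ | ⟨h3, _⟩
    · rw [h3]
    · rw [h3, tau_neg, ContinuousLinearMap.adjoint_inner_right, ← inner_conj_symm,
        Complex.conj_re]
  have h3 : (⟪x, x⟫_ℂ).re = ‖x‖ ^ 2 := by
    have := @inner_self_eq_norm_sq ℂ H _ _ _ x
    simpa using this
  have h4 : RCLike.re (⟪x, tau T (t - s) x⟫_ℂ) = (⟪x, tau T (t - s) x⟫_ℂ).re := rfl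
  rw [h4, h2, inner_sub_right, Complex.sub_re, h3]
  ring

end

end Pool.Agent.Q98.BS
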