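import Mathlib

set_option autoImplicit false

/-!
# Unitary equivalence of separable Hilbert spaces and extension of finite dimensional isometries
-/

open scoped InnerProductSpace

namespace Pool.Agent.Q98.BS

noncomputable section

section iso

variable {E F : Type} [NormedAddCommGroup E] [InnerProductSpace ℂ E] [CompleteSpace E]
  [NormedAddCommGroup F] [InnerProductSpace ℂ F] [CompleteSpace F]

theorem orthonormal_countable [TopologicalSpace.SeparableSpace E] {ι : Type} {b : ι → E}
    (hb : Orthonormal ℂ b) : Countable ι := by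
  have hdisj : Pairwise (Function.onFun Disjoint (fun i => Metric.ball (b i) (1 / 2))) := by
    intro i j hij
    apply Metric.ball_disjoint_ball
    have h1 : dist (b i) (b j) ^ 2 = 2 := by
      have := @norm_sub_sq ℂ E _ _ _ (b i) (b j)
      rw [dist_eq_norm, this, hb.1 i, hb.1 j, hb.2 hij]
      norm_num
    have h0 : 0 ≤ dist (b i) (b j) := dist_nonneg
    nlinarith
  exact hdisj.countable_of_isOpen_disjoint (fun i => Metric.isOpen_ball)
    (fun i => ⟨b i, Metric.mem_ball_self (by norm_num)⟩)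

theorem exists_basis_nat [TopologicalSpace.SeparableSpace E] (hE : ¬ FiniteDimensional ℂ E) :
    Nonempty (HilbertBasis ℕ ℂ E) := by
  classical
  obtain ⟨w, b, -⟩ := exists_hilbertBasis ℂ E
  have hc : Countable w := orthonormal_countable b.orthonormal
  have hi : Infinite w := by
    by_contra hfin
    rw [not_infinite_iff_finite] at hfin
    have := Fintype.ofFinite w
    apply hE
    exact (b.toOrthonormalBasis).toBasis.finiteDimensional_of_finite
  obtain ⟨e⟩ : Nonempty (ℕ ≃ w) := by
    obtain ⟨d⟩ := nonempty_denumerable w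
    exact ⟨(Denumerable.eqv w).symm⟩
  have hv : Orthonormal ℂ (fun k => b (e k)) := b.orthonormal.comp e e.injective
  have hr : Set.range (fun k => b (e k)) = Set.range b := by
    ext x
    constructor
    · rintro ⟨k, rfl⟩; exact ⟨e k, rfl⟩
    · rintro ⟨i, rfl⟩; exact ⟨e.symm i, by simp⟩
  exact ⟨HilbertBasis.mk hv (by rw [hr, b.dense_span])⟩

theorem exists_iso [TopologicalSpace.SeparableSpace E] [TopologicalSpace.SeparableSpace F]
    (hE : ¬ FiniteDimensional ℂ E) (hF : ¬ FiniteDimensional ℂ F) :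
    Nonempty (E ≃ₗᵢ[ℂ] F) := by
  obtain ⟨b⟩ := exists_basis_nat hE
  obtain ⟨c⟩ := exists_basis_nat hF
  exact ⟨b.repr.trans c.repr.symm⟩

end iso

section ext

variable {H : Type} [NormedAddCommGroup H] [InnerProductSpace ℂ H] [CompleteSpace H]

/-- An isometry of a finite dimensional subspace into the whole space extends to a unitary. -/
theorem ext_isom (F : Submodule ℂ H) [FiniteDimensional ℂ F] (L : F →ₗᵢ[ℂ] H) :
    ∃ W : H ≃ₗᵢ[ℂ] H, ∀ x : F, W x = L x := by
  classical
  set V : Submodule ℂ H := F ⊔ LinearMap.range L.toLinearMap with hV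
  have hVfd : FiniteDimensional ℂ V := by
    rw [hV]
    infer_instance
  have hFV : F ≤ V := le_sup_left
  have hLV : ∀ x : F, L x ∈ V := fun x => le_sup_right (a := F) ⟨x, rfl⟩
  let F' : Submodule ℂ V := F.comap V.subtype
  let L' : F' →ₗᵢ[ℂ] V :=
    { toFun := fun x => ⟨L ⟨((x : V) : H), x.2⟩, hLV _⟩
      map_add' := by
        intro x y
        apply Subtype.ext
        show L _ = L _ + L _
        rw [← map_add]
        rfl
      map_smul' := by
        intro c x
        apply Subtype.ext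
        show L _ = c • L _
        rw [← map_smul]
        rfl
      norm_map' := by
        intro x
        show ‖L ⟨((x : V) : H), x.2⟩‖ = ‖x‖
        rw [L.norm_map]
        rfl }
  let M : V →ₗᵢ[ℂ] V := L'.extend
  have hM : ∀ x : F, ((M ⟨x, hFV x.2⟩ : V) : H) = L x := by
    intro x
    have h1 : (⟨(x : H), hFV x.2⟩ : V) = ((⟨⟨(x : H), hFV x.2⟩, x.2⟩ : F') : V) := rfl
    have h2 := L'.extend_apply ⟨⟨(x : H), hFV x.2⟩, x.2⟩
    rw [h1]
    exact congrArg Subtype.val h2
  have hsurj : Function.Surjective M :=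
    LinearMap.surjective_of_injective (f := M.toLinearMap) M.injective
  let P : H →L[ℂ] V := V.orthogonalProjectionOnto
  have hPo : ∀ (x : H) (v : V), ⟪(v : H), x - (P x : H)⟫_ℂ = 0 := by
    intro x v
    exact V.sub_starProjection_mem_orthogonal x v v.2
  have hpy : ∀ (v : V) (y : H), ⟪(v : H), y⟫_ℂ = 0 → ‖(v : H) + y‖ ^ 2 = ‖v‖ ^ 2 + ‖y‖ ^ 2 := by
    intro v y hy
    have := @norm_add_sq ℂ H _ _ _ (v : H) y
    rw [this, hy]
    simp
  let W0 : H →ₗ[ℂ] H := (V.subtype ∘ₗ M.toLinearMap ∘ₗ P.toLinearMap) +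
    (LinearMap.id - V.subtype ∘ₗ P.toLinearMap)
  have hW0 : ∀ x, W0 x = ((M (P x) : V) : H) + (x - (P x : H)) := fun x => rfl
  have hnorm : ∀ x, ‖W0 x‖ = ‖x‖ := by
    intro x
    have h1 := hpy (M (P x)) (x - (P x : H)) (hPo x _)
    have h2 := hpy (P x) (x - (P x : H)) (hPo x _)
    rw [add_sub_cancel] at h2
    rw [← hW0, M.norm_map, ← h2] at h1
    exact (sq_eq_sq₀ (norm_nonneg _) (norm_nonneg _)).1 h1
  let W1 : H →ₗᵢ[ℂ] H := ⟨W0, hnorm⟩
  have hPV : ∀ v : V, P (v : H) = v := fun v =>
    Submodule.orthogonalProjectionOnto_mem_subspace_eq_self v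
  have hW1 : Function.Surjective W1 := by
    intro y
    obtain ⟨v, hv⟩ := hsurj (P y)
    refine ⟨(v : H) + (y - (P y : H)), ?_⟩
    have h3 : P ((v : H) + (y - (P y : H))) = v := by
      rw [map_add, map_sub, hPV, hPV, sub_self, add_zero]
    show W0 _ = y
    rw [hW0, h3, hv]
    abel
  refine ⟨LinearIsometryEquiv.ofSurjective W1 hW1, fun x => ?_⟩
  have h4 : P (x : H) = ⟨x, hFV x.2⟩ := hPV ⟨x, hFV x.2⟩
  show W0 x = L x
  rw [hW0, h4, hM]
  simp

end ext

end

end Pool.Agent.Q98.BS
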