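import Pool.Agent.Q98.BS.Dil
import Pool.Agent.Q98.BS.Ext

set_option autoImplicit false

/-!
# Unitary groups and the dilation theorem
-/

open scoped InnerProductSpace NNReal
open UniformSpace (Completion)
open TopologicalSpace

namespace Pool.Agent.Q98.BS

noncomputable section

/-- strongly continuous one-parameter groups of isometries (unitary groups) -/
structure UGroup (H : Type) [NormedAddCommGroup H] [InnerProductSpace ℂ H] where
  /-- the operators -/
  U : ℝ → H →L[ℂ] H
  zero : U 0 = 1
  add : ∀ s t, U (s + t) = U s * U t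
  isom : ∀ t x, ‖U t x‖ = ‖x‖
  cont : ∀ x, Continuous fun t => U t x

variable {H : Type} [NormedAddCommGroup H] [InnerProductSpace ℂ H]

/-- the restriction of a unitary group to `t ≥ 0` -/
def UGroup.res (V : UGroup H) : CSemi H where
  T t := V.U t
  zero := by
    show V.U ((0 : ℝ≥0) : ℝ) = 1
    rw [NNReal.coe_zero]
    exact V.zero
  add t s := by
    show V.U ((t + s : ℝ≥0) : ℝ) = _
    rw [NNReal.coe_add]
    exact V.add _ _
  cont x := (V.cont x).comp NNReal.continuous_coe
  contr t := ContinuousLinearMap.opNorm_le_bound _ zero_le_one fun x => by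
    rw [V.isom, one_mul]

theorem UGroup.inner (V : UGroup H) (t : ℝ) (x y : H) : ⟪V.U t x, V.U t y⟫_ℂ = ⟪x, y⟫_ℂ := by
  let L : H →ₗᵢ[ℂ] H := ⟨(V.U t).toLinearMap, V.isom t⟩
  exact L.inner_map_map x y

theorem UGroup.neg_apply (V : UGroup H) (t : ℝ) (x : H) : V.U (-t) (V.U t x) = x := by
  have h := V.add (-t) t
  rw [neg_add_cancel, V.zero] at h
  exact (congrArg (fun A : H →L[ℂ] H => A x) h).symm

theorem UGroup.apply_neg (V : UGroup H) (t : ℝ) (x : H) : V.U t (V.U (-t) x) = x := by
  have h := V.add t (-t)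
  rw [add_neg_cancel, V.zero] at h
  exact (congrArg (fun A : H →L[ℂ] H => A x) h).symm

/-- transport of a unitary group along a unitary operator -/
def UGroup.conj {K : Type} [NormedAddCommGroup K] [InnerProductSpace ℂ K] (V : UGroup K)
    (J : K ≃ₗᵢ[ℂ] H) : UGroup H where
  U t := J.toContinuousLinearEquiv.toContinuousLinearMap.comp
    ((V.U t).comp J.symm.toContinuousLinearEquiv.toContinuousLinearMap)
  zero := by
    ext x
    show J (V.U 0 (J.symm x)) = x
    rw [V.zero]
    simp
  add s t := by
    ext x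
    show J (V.U (s + t) (J.symm x)) = J (V.U s (J.symm (J (V.U t (J.symm x)))))
    rw [V.add, LinearIsometryEquiv.symm_apply_apply]
    rfl
  isom t x := by
    show ‖J (V.U t (J.symm x))‖ = ‖x‖
    rw [J.norm_map, V.isom, J.symm.norm_map]
  cont x := J.continuous.comp (V.cont (J.symm x))

theorem UGroup.conj_apply {K : Type} [NormedAddCommGroup K] [InnerProductSpace ℂ K] (V : UGroup K)
    (J : K ≃ₗᵢ[ℂ] H) (t : ℝ) (x : H) : (V.conj J).U t x = J (V.U t (J.symm x)) := rfl

/-- strong continuity on a dense set suffices -/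
theorem cont_of_dense (U : ℝ → H →L[ℂ] H) (hU : ∀ t x, ‖U t x‖ = ‖x‖) (S : Set H) (hS : Dense S)
    (h : ∀ x ∈ S, Continuous fun t => U t x) (x : H) : Continuous fun t => U t x := by
  refine continuous_of_uniform_approx_of_continuous fun u hu => ?_
  obtain ⟨ε, hε, hεu⟩ := Metric.mem_uniformity_dist.1 hu
  obtain ⟨y, hy, hyS⟩ := hS.exists_dist_lt x hε
  refine ⟨fun t => U t y, h y hy, fun t => hεu ?_⟩
  rw [dist_eq_norm, ← map_sub, hU, ← dist_eq_norm]
  exact hyS

variable [CompleteSpace H]

/-- the dilation space -/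
abbrev KS (T : CSemi H) : Type := Completion (GE T)

theorem tendsto_tau (T : CSemi H) (x : H) :
    Filter.Tendsto (fun r : ℝ => tau T |r| x) (nhds 0) (nhds x) := by
  have h1 : ∀ r : ℝ, tau T |r| x = T.T (|r|).toNNReal x := fun r => by
    rw [tau_nonneg T (abs_nonneg r)]
  have h2 : Continuous fun r : ℝ => T.T (|r|).toNNReal x :=
    (T.cont x).comp (continuous_real_toNNReal.comp continuous_abs)
  have h3 := h2.tendsto 0
  simp only [abs_zero, Real.toNNReal_zero, T.zero] at h3
  simp only [h1]
  exact h3

theorem continuous_del_left (T : CSemi H) (x : H) : Continuous fun s => del T s x := by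
  rw [continuous_iff_continuousAt]
  intro t
  rw [ContinuousAt, tendsto_iff_norm_sub_tendsto_zero]
  have h1 : Filter.Tendsto (fun s : ℝ => 2 * (⟪x, x - tau T |t - s| x⟫_ℂ).re) (nhds t)
      (nhds 0) := by
    have h2 : Filter.Tendsto (fun s : ℝ => t - s) (nhds t) (nhds 0) := by
      have : Continuous fun s : ℝ => t - s := by fun_prop
      have := this.tendsto t
      rwa [sub_self] at this
    have h3 := (tendsto_tau T x).comp h2
    have h4 : Filter.Tendsto (fun s : ℝ => ⟪x, x - tau T |t - s| x⟫_ℂ) (nhds t)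
        (nhds ⟪x, x - x⟫_ℂ) := tendsto_const_nhds.inner (tendsto_const_nhds.sub h3)
    rw [sub_self, inner_zero_right] at h4
    have h5 := ((Complex.continuous_re.tendsto _).comp h4).const_mul 2
    simpa using h5
  have h6 : (fun s => ‖del T s x - del T t x‖) =
      fun s => Real.sqrt (2 * (⟪x, x - tau T |t - s| x⟫_ℂ).re) := by
    funext s
    rw [← norm_del_sub, Real.sqrt_sq (norm_nonneg _)]
  rw [h6]
  have h7 := (Real.continuous_sqrt.tendsto _).comp h1
  rw [Real.sqrt_zero] at h7
  exact h7

theorem del_sub (T : CSemi H) (s : ℝ) (x y : H) : del T s (x - y) = del T s x - del T s y :=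
  Finsupp.single_sub s x y

theorem continuous_del (T : CSemi H) : Continuous fun p : ℝ × H => del T p.1 p.2 := by
  rw [continuous_iff_continuousAt]
  rintro ⟨t, y⟩
  rw [ContinuousAt, tendsto_iff_norm_sub_tendsto_zero]
  have h1 : Filter.Tendsto (fun p : ℝ × H => ‖p.2 - y‖ + ‖del T p.1 y - del T t y‖)
      (nhds (t, y)) (nhds 0) := by
    have a1 : Continuous fun p : ℝ × H => ‖p.2 - y‖ + ‖del T p.1 y - del T t y‖ := by
      have := continuous_del_left T y
      exact ((continuous_snd.sub continuous_const).norm).add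
        (((this.comp continuous_fst).sub continuous_const).norm)
    have := a1.tendsto (t, y)
    simpa using this
  refine squeeze_zero (fun _ => norm_nonneg _) (fun p => ?_) h1
  have h2 : del T p.1 p.2 - del T t y = del T p.1 (p.2 - y) + (del T p.1 y - del T t y) := by
    rw [del_sub]
    abel
  rw [h2]
  refine (norm_add_le _ _).trans ?_
  rw [norm_del]

theorem separable_GE [SeparableSpace H] (T : CSemi H) : SeparableSpace (GE T) := by
  rw [← isSeparable_univ_iff]
  have h1 : IsSeparable (Set.range fun p : ℝ × H => del T p.1 p.2) :=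
    isSeparable_range (continuous_del T)
  have h2 : IsSeparable ((Submodule.span ℂ (Set.range fun p : ℝ × H => del T p.1 p.2) :
      Submodule ℂ (GE T)) : Set (GE T)) := h1.span
  refine h2.mono fun f _ => ?_
  refine ind_GE T (p := fun f => f ∈ (Submodule.span ℂ
    (Set.range fun p : ℝ × H => del T p.1 p.2) : Set (GE T))) f (Submodule.zero_mem _)
    (fun f g hf hg => Submodule.add_mem _ hf hg)
    (fun s x => Submodule.subset_span ⟨(s, x), rfl⟩)

/-- the operators on the dilation space -/
def dilU (T : CSemi H) (r : ℝ) : KS T →L[ℂ] KS T :=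
  ((trs T r).toContinuousLinearMap).completion

theorem dilU_coe (T : CSemi H) (r : ℝ) (f : GE T) :
    dilU T r (f : KS T) = ((trs T r f : GE T) : KS T) :=
  ContinuousLinearMap.completion_apply_coe _ _

theorem dilU_zero (T : CSemi H) : dilU T 0 = 1 := by
  ext k
  refine Completion.induction_on k ?_ fun f => ?_
  · exact isClosed_eq (ContinuousLinearMap.continuous _) (ContinuousLinearMap.continuous _)
  · rw [dilU_coe, trs_zero]
    rfl

theorem dilU_add (T : CSemi H) (s t : ℝ) : dilU T (s + t) = dilU T s * dilU T t := by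
  ext k
  refine Completion.induction_on k ?_ fun f => ?_
  · exact isClosed_eq (ContinuousLinearMap.continuous _) (ContinuousLinearMap.continuous _)
  · have h : (dilU T s * dilU T t) (f : KS T) = dilU T s (dilU T t (f : KS T)) := rfl
    rw [h, dilU_coe, dilU_coe, dilU_coe, trs_trs]

theorem dilU_isom (T : CSemi H) (t : ℝ) (k : KS T) : ‖dilU T t k‖ = ‖k‖ := by
  refine Completion.induction_on k ?_ fun f => ?_
  · exact isClosed_eq (ContinuousLinearMap.continuous _).norm continuous_norm
  · rw [dilU_coe, Completion.norm_coe, Completion.norm_coe, (trs T t).norm_map]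

theorem dilU_cont (T : CSemi H) (k : KS T) : Continuous fun t => dilU T t k := by
  refine cont_of_dense (dilU T) (dilU_isom T) (Set.range ((↑) : GE T → KS T))
    Completion.denseRange_coe ?_ k
  rintro _ ⟨f, rfl⟩
  have h0 : (fun t => dilU T t (f : KS T)) = fun t => ((trs T t f : GE T) : KS T) := by
    funext t
    exact dilU_coe T t f
  rw [h0]
  refine (Completion.continuous_coe (GE T)).comp ?_
  refine ind_GE T (p := fun f => Continuous fun t => trs T t f) f ?_ ?_ ?_
  · simp only [map_zero]
    exact continuous_const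
  · intro f g hf hg
    simp only [map_add]
    exact hf.add hg
  · intro s x
    simp only [trs_del]
    exact (continuous_del_left T x).comp (continuous_const.add continuous_id)

/-- the group on the dilation space -/
def dilG (T : CSemi H) : UGroup (KS T) where
  U := dilU T
  zero := dilU_zero T
  add := dilU_add T
  isom := dilU_isom T
  cont := dilU_cont T

/-- the embedding -/
def dilI (T : CSemi H) : H →ₗᵢ[ℂ] KS T where
  toFun x := (del T 0 x : KS T)
  map_add' x y := by
    have : del T 0 (x + y) = del T 0 x + del T 0 y := Finsupp.single_add 0 x y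
    rw [this, Completion.coe_add]
  map_smul' c x := by
    have : del T 0 (c • x) = c • del T 0 x := (Finsupp.smul_single c (0 : ℝ) x).symm
    rw [this, Completion.coe_smul]
    rfl
  norm_map' x := by
    show ‖(del T 0 x : KS T)‖ = ‖x‖
    rw [Completion.norm_coe, norm_del]

theorem dil_coef (T : CSemi H) (t : ℝ≥0) (x y : H) :
    ⟪dilI T x, (dilG T).U t (dilI T y)⟫_ℂ = ⟪x, T.T t y⟫_ℂ := by
  show ⟪(del T 0 x : KS T), dilU T t (del T 0 y : KS T)⟫_ℂ = _
  rw [dilU_coe, Completion.inner_coe, trs_del, inner_del, zero_add, sub_zero,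
    tau_nonneg T (NNReal.coe_nonneg t), Real.toNNReal_coe]

/-- **Exact approximation**: for every contraction semigroup and every finite dimensional subspace
there is a unitary group with the same coefficients on the subspace. -/
theorem exists_group [SeparableSpace H] (hH : ¬ FiniteDimensional ℂ H) (T : CSemi H)
    (F : Submodule ℂ H) [FiniteDimensional ℂ F] :
    ∃ V : UGroup H, ∀ (t : ℝ≥0), ∀ x ∈ F, ∀ y ∈ F, ⟪x, V.U t y⟫_ℂ = ⟪x, T.T t y⟫_ℂ := by
  have := separable_GE T
  have hK : ¬ FiniteDimensional ℂ (KS T) := fun h =>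
    hH (FiniteDimensional.of_injective (dilI T).toLinearMap (dilI T).injective)
  obtain ⟨J⟩ := exists_iso hK hH
  let L : F →ₗᵢ[ℂ] H := J.toLinearIsometry.comp ((dilI T).comp F.subtypeₗᵢ)
  have hL : ∀ x : F, L x = J (dilI T x) := fun x => rfl
  obtain ⟨W, hW⟩ := ext_isom F L
  refine ⟨(dilG T).conj (J.trans W.symm), fun t x hx y hy => ?_⟩
  rw [UGroup.conj_apply]
  have h1 : ∀ z ∈ F, W z = J (dilI T z) := fun z hz => hW ⟨z, hz⟩
  have h2 : (J.trans W.symm).symm y = dilI T y := by
    show J.symm (W y) = _
    rw [h1 y hy, J.symm_apply_apply]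
  rw [h2]
  show ⟪x, W.symm (J _)⟫_ℂ = _
  rw [← W.inner_map_map, W.apply_symm_apply, h1 x hx, J.inner_map_map, dil_coef]

end

end Pool.Agent.Q98.BS
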