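import Pool.Agent.Q98.BS.Top

set_option autoImplicit false

/-!
# The space of contraction semigroups is a Baire space
-/

open scoped InnerProductSpace NNReal Topology Uniformity
open Filter TopologicalSpace Topology

namespace Pool.Agent.Q98.BS

noncomputable section

/-- A space with a dense Baire subspace is a Baire space. -/
theorem baire_of_inducing {Z X : Type} [TopologicalSpace Z] [BaireSpace Z] [TopologicalSpace X]
    (Φ : Z → X) (hΦ : IsInducing Φ) (hd : DenseRange Φ) : BaireSpace X := by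
  refine ⟨fun f ho hdf => ?_⟩
  have h1 : ∀ n, IsOpen (Φ ⁻¹' f n) := fun n => (ho n).preimage hΦ.continuous
  have h2 : ∀ n, Dense (Φ ⁻¹' f n) := by
    intro n
    rw [dense_iff_inter_open]
    rintro U hU ⟨z, hz⟩
    obtain ⟨O, hO, rfl⟩ := hΦ.isOpen_iff.1 hU
    have h3 : (O ∩ f n).Nonempty := (dense_iff_inter_open.1 (hdf n)) O hO ⟨Φ z, hz⟩
    obtain ⟨y, hy⟩ := hd.exists_mem_open (hO.inter (ho n)) h3
    exact ⟨y, hy⟩
  have h3 := dense_iInter_of_isOpen_nat h1 h2
  rw [dense_iff_inter_open]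
  rintro O hO hne
  obtain ⟨y, hy⟩ := hd.exists_mem_open hO hne
  obtain ⟨z, hz1, hz2⟩ := (dense_iff_inter_open.1 h3) (Φ ⁻¹' O) (hO.preimage hΦ.continuous) ⟨y, hy⟩
  refine ⟨Φ z, hz1, ?_⟩
  rw [Set.mem_iInter] at hz2 ⊢
  exact hz2

variable {H : Type} [NormedAddCommGroup H] [InnerProductSpace ℂ H] [CompleteSpace H]

theorem baire_ZZ {x : ℕ → H} (hd : DenseRange x) : BaireSpace (ZZ x) := by
  have h1 : CompleteSpace (ZZ x) := (isClosed_ZZ hd).completeSpace_coe
  have h2 : IsCountablyGenerated (𝓤 (ZZ x)) := by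
    have : (𝓤 (ZZ x)) = comap (Prod.map Subtype.val Subtype.val) (𝓤 (ℕ → C(ℝ, H))) :=
      uniformity_subtype
    rw [this]
    infer_instance
  infer_instance

/-- the restriction map -/
def resZ (x : ℕ → H) (z : ZZ x) : CSemi H := (z.2.choose).res

theorem resZ_spec (x : ℕ → H) (z : ZZ x) (i : ℕ) (t : ℝ) :
    z.1 i t = (z.2.choose).U t (x i) := z.2.choose_spec i t

theorem inducing_resZ {x : ℕ → H} (hx : ∀ j, x j ≠ 0) (hd : DenseRange x) :
    @IsInducing (ZZ x) (CSemi H) _ (metr x hx hd).toPseudoMetricSpace.toUniformSpace.toTopologicalSpace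
      (resZ x) := by
  let := metr x hx hd
  rw [isInducing_iff_nhds]
  intro z
  refine le_antisymm (tendsto_iff_comap.1 ?_) ?_
  · -- continuity
    rw [tendsto_iff_dist_tendsto_zero]
    show Tendsto (fun a => semiDist x (resZ x a) (resZ x z)) (𝓝 z) (𝓝 0)
    rw [tendsto_semiDist hx]
    intro n i j
    have h1 : Tendsto (fun a : ZZ x => a.1 i) (𝓝 z) (𝓝 (z.1 i)) :=
      (tendsto_pi_nhds.1 (continuous_subtype_val.tendsto z)) i
    have h2 := (ContinuousMap.tendsto_iff_forall_isCompact_tendstoUniformlyOn.1 h1)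
      (Set.Icc (0 : ℝ) (n + 1)) isCompact_Icc
    rw [Metric.tendsto_nhds]
    intro ε hε
    rw [Metric.tendstoUniformlyOn_iff] at h2
    have hj := norm_pos_iff.2 (hx j)
    filter_upwards [h2 (ε / (2 * ‖x j‖)) (by positivity)] with a ha
    have h3 : supDiff (resZ x a) (resZ x z) (n + 1) (x i) (x j) ≤ ε / 2 := by
      refine supDiff_le fun t ht => ?_
      have h4 := ha t ⟨t.2, by exact_mod_cast ht⟩
      rw [dist_comm, dist_eq_norm, resZ_spec, resZ_spec] at h4
      refine (norm_inner_le_norm _ _).trans ?_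
      have h5 : ‖((resZ x a).T t - (resZ x z).T t) (x i)‖ ≤ ε / (2 * ‖x j‖) := h4.le
      calc ‖((resZ x a).T t - (resZ x z).T t) (x i)‖ * ‖x j‖ ≤ ε / (2 * ‖x j‖) * ‖x j‖ := by gcongr
        _ = ε / 2 := by field_simp
    rw [Real.dist_eq, sub_zero, abs_of_nonneg (supDiff_nonneg _ _ _ _ _)]
    linarith
  · -- the other direction
    have h0 : Tendsto (fun a : ZZ x => resZ x a) (comap (resZ x) (𝓝 (resZ x z)))
        (𝓝 (resZ x z)) := tendsto_comap
    rw [tendsto_iff_dist_tendsto_zero] at h0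
    have h1 : Tendsto (fun a => semiDist x (resZ x a) (resZ x z))
      (comap (resZ x) (𝓝 (resZ x z))) (𝓝 0) := h0
    rw [tendsto_semiDist hx] at h1
    have h2 : Tendsto (fun a : ZZ x => a) (comap (resZ x) (𝓝 (resZ x z))) (𝓝 z) := by
      rw [tendsto_subtype_rng, tendsto_pi_nhds]
      intro i
      rw [ContinuousMap.tendsto_iff_forall_isCompact_tendstoUniformlyOn]
      intro K hK
      rw [Metric.tendstoUniformlyOn_iff]
      intro ε hε
      obtain ⟨N, hN⟩ : ∃ N : ℕ, ∀ t ∈ K, |t| ≤ N := by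
        obtain ⟨C, hC⟩ := hK.isBounded.exists_norm_le
        obtain ⟨N, hN⟩ := exists_nat_ge C
        exact ⟨N, fun t ht => (hC t ht).trans hN⟩
      filter_upwards [strong_all hd (fun a : ZZ x => a.2.choose) z.2.choose h1 i N hε]
        with a ha t ht
      rw [dist_comm, dist_eq_norm, resZ_spec, resZ_spec]
      exact ha t (hN t ht)
    exact h2

/-- the orbit family of a unitary group -/
def toZZ (x : ℕ → H) (V : UGroup H) : ZZ x := ⟨fun i => ⟨fun t => V.U t (x i), V.cont _⟩, V, fun _ _ => rfl⟩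

theorem resZ_toZZ {x : ℕ → H} (hd : DenseRange x) (V : UGroup H) : resZ x (toZZ x V) = V.res := by
  refine ext_of_dense hd fun t i j => ?_
  have h1 := resZ_spec x (toZZ x V) i t
  have h2 : ((resZ x (toZZ x V)).T t - V.res.T t) (x i) = 0 := by
    show ((toZZ x V).2.choose).U t (x i) - V.U t (x i) = 0
    rw [← h1]
    exact sub_self _
  rw [h2, inner_zero_left]

theorem denseRange_resZ [SeparableSpace H] (hH : ¬ FiniteDimensional ℂ H) {x : ℕ → H}
    (hx : ∀ j, x j ≠ 0) (hd : DenseRange x) :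
    @DenseRange (CSemi H) (metr x hx hd).toPseudoMetricSpace.toUniformSpace.toTopologicalSpace
      (ZZ x) (resZ x) := by
  let := metr x hx hd
  intro T
  classical
  have h1 : ∀ m : ℕ, ∃ V : UGroup H, ∀ (t : ℝ≥0), ∀ i < m, ∀ j < m,
      ⟪(V.res.T t - T.T t) (x i), x j⟫_ℂ = 0 := by
    intro m
    obtain ⟨V, hV⟩ := exists_group hH T (Submodule.span ℂ ((Finset.range m).image x : Set H))
    refine ⟨V, fun t i hi j hj => ?_⟩
    have hmem : ∀ i < m, x i ∈ Submodule.span ℂ ((Finset.range m).image x : Set H) := fun i hi =>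
      Submodule.subset_span (by
        rw [Finset.coe_image]
        exact ⟨i, by simpa using hi, rfl⟩)
    have h2 := hV t (x j) (hmem j hj) (x i) (hmem i hi)
    have h3 : ⟪(V.res.T t - T.T t) (x i), x j⟫_ℂ = ⟪V.U t (x i), x j⟫_ℂ - ⟪T.T t (x i), x j⟫_ℂ := by
      rw [← inner_sub_left]
      rfl
    rw [h3, ← inner_conj_symm, h2, inner_conj_symm, sub_self]
  choose V hV using h1
  have h2 : Tendsto (fun m => semiDist x (V m).res T) atTop (𝓝 0) := by
    rw [tendsto_semiDist hx]
    intro n i j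
    refine tendsto_const_nhds.congr' ?_
    filter_upwards [eventually_gt_atTop (max i j)] with m hm
    refine (le_antisymm (supDiff_le fun t _ => ?_) (supDiff_nonneg _ _ _ _ _)).symm
    rw [hV m t i (lt_of_le_of_lt (le_max_left _ _) hm) j (lt_of_le_of_lt (le_max_right _ _) hm),
      norm_zero]
  have h3 : Tendsto (fun m => resZ x (toZZ x (V m))) atTop (𝓝 T) := by
    rw [tendsto_iff_dist_tendsto_zero]
    refine h2.congr fun m => ?_
    rw [resZ_toZZ hd]
    rfl
  exact mem_closure_of_tendsto h3 (Eventually.of_forall fun m => ⟨_, rfl⟩)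

/-- **The space of contraction semigroups is a Baire space.** -/
theorem baire_main [SeparableSpace H] (hH : ¬ FiniteDimensional ℂ H) {x : ℕ → H}
    (hx : ∀ j, x j ≠ 0) (hd : DenseRange x) :
    @BaireSpace (CSemi H) (metr x hx hd).toPseudoMetricSpace.toUniformSpace.toTopologicalSpace := by
  let := metr x hx hd
  have := baire_ZZ hd
  exact baire_of_inducing (resZ x) (inducing_resZ hx hd) (denseRange_resZ hH hx hd)

end

end Pool.Agent.Q98.BS
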