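import Pool.Agent.Q98.BS.Def

set_option autoImplicit false

/-!
# The metric
-/

open scoped InnerProductSpace NNReal Topology
open Filter

namespace Pool.Agent.Q98.BS

noncomputable section

variable {H : Type} [NormedAddCommGroup H] [InnerProductSpace ℂ H]

theorem CSemi.norm_le (T : CSemi H) (t : ℝ≥0) (x : H) : ‖T.T t x‖ ≤ ‖x‖ := by
  have := (T.T t).le_of_opNorm_le (T.contr t) x
  rwa [one_mul] at this

theorem diff_le (T S : CSemi H) (t : ℝ≥0) (u v : H) :
    ‖⟪(T.T t - S.T t) u, v⟫_ℂ‖ ≤ 2 * (‖u‖ * ‖v‖) := by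
  refine (norm_inner_le_norm _ _).trans ?_
  have h1 : ‖(T.T t - S.T t) u‖ ≤ 2 * ‖u‖ := by
    have h2 : (T.T t - S.T t) u = T.T t u - S.T t u := rfl
    rw [h2]
    refine (norm_sub_le _ _).trans ?_
    linarith [T.norm_le t u, S.norm_le t u]
  calc ‖(T.T t - S.T t) u‖ * ‖v‖ ≤ (2 * ‖u‖) * ‖v‖ := by gcongr
    _ = _ := by ring

theorem supDiff_le {T S : CSemi H} {n : ℕ} {u v : H} {C : ℝ}
    (h : ∀ t : ℝ≥0, t ≤ n → ‖⟪(T.T t - S.T t) u, v⟫_ℂ‖ ≤ C) : supDiff T S n u v ≤ C := by
  refine csSup_le ?_ ?_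
  · exact ⟨_, 0, ⟨le_rfl, zero_le⟩, rfl⟩
  · rintro _ ⟨t, ht, rfl⟩
    exact h t ht.2

theorem le_supDiff (T S : CSemi H) (n : ℕ) (u v : H) {t : ℝ≥0} (ht : t ≤ n) :
    ‖⟪(T.T t - S.T t) u, v⟫_ℂ‖ ≤ supDiff T S n u v := by
  refine le_csSup ?_ ⟨t, ⟨zero_le, ht⟩, rfl⟩
  refine ⟨2 * (‖u‖ * ‖v‖), ?_⟩
  rintro _ ⟨t, _, rfl⟩
  exact diff_le T S t u v

theorem supDiff_nonneg (T S : CSemi H) (n : ℕ) (u v : H) : 0 ≤ supDiff T S n u v :=
  (norm_nonneg _).trans (le_supDiff T S n u v (zero_le))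

theorem supDiff_le_two (T S : CSemi H) (n : ℕ) (u v : H) :
    supDiff T S n u v ≤ 2 * (‖u‖ * ‖v‖) := supDiff_le fun t _ => diff_le T S t u v

theorem supDiff_comm (T S : CSemi H) (n : ℕ) (u v : H) :
    supDiff T S n u v = supDiff S T n u v := by
  unfold supDiff
  congr 1
  refine Set.image_congr fun t _ => ?_
  rw [← neg_sub (S.T t) (T.T t), neg_apply, inner_neg_left, norm_neg]

theorem supDiff_triangle (T S R : CSemi H) (n : ℕ) (u v : H) :
    supDiff T R n u v ≤ supDiff T S n u v + supDiff S R n u v := by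
  refine supDiff_le fun t ht => ?_
  have h1 : (T.T t - R.T t) u = (T.T t - S.T t) u + (S.T t - R.T t) u := by
    show T.T t u - R.T t u = (T.T t u - S.T t u) + (S.T t u - R.T t u)
    abel
  rw [h1, inner_add_left]
  exact (norm_add_le _ _).trans (add_le_add (le_supDiff T S n u v ht) (le_supDiff S R n u v ht))

theorem supDiff_self (T : CSemi H) (n : ℕ) (u v : H) : supDiff T T n u v = 0 := by
  refine le_antisymm (supDiff_le fun t _ => ?_) (supDiff_nonneg _ _ _ _ _)
  simp

/-- the summand -/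
def trm (x : ℕ → H) (T S : CSemi H) (p : ℕ × ℕ × ℕ) : ℝ :=
  (1 / 2 : ℝ) ^ ((p.2.1 + 1) + (p.2.2 + 1) + (p.1 + 1)) *
    (supDiff T S (p.1 + 1) (x p.2.1) (x p.2.2) / (‖x p.2.1‖ * ‖x p.2.2‖))

theorem semiDist_eq (x : ℕ → H) (T S : CSemi H) : semiDist x T S = ∑' p, trm x T S p := rfl

/-- the weights -/
def wt (p : ℕ × ℕ × ℕ) : ℝ := (1 / 2 : ℝ) ^ ((p.2.1 + 1) + (p.2.2 + 1) + (p.1 + 1))

theorem wt_pos (p : ℕ × ℕ × ℕ) : 0 < wt p := by
  unfold wt
  positivity

theorem summable_wt : Summable wt := by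
  have h1 : Summable fun n : ℕ => (1 / 2 : ℝ) ^ (n + 1) :=
    (summable_nat_add_iff 1).2 summable_geometric_two
  have h2 := h1.mul_of_nonneg h1 (fun n => by positivity) (fun n => by positivity)
  have h3 := h1.mul_of_nonneg h2 (fun n => by positivity) (fun n => by positivity)
  refine h3.congr fun p => ?_
  unfold wt
  rw [pow_add, pow_add]
  ring

theorem trm_nonneg (x : ℕ → H) (T S : CSemi H) (p : ℕ × ℕ × ℕ) : 0 ≤ trm x T S p := by
  unfold trm
  have := supDiff_nonneg T S (p.1 + 1) (x p.2.1) (x p.2.2)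
  positivity

theorem trm_le (x : ℕ → H) (T S : CSemi H) (p : ℕ × ℕ × ℕ) : trm x T S p ≤ 2 * wt p := by
  have h1 : supDiff T S (p.1 + 1) (x p.2.1) (x p.2.2) / (‖x p.2.1‖ * ‖x p.2.2‖) ≤ 2 :=
    div_le_of_le_mul₀ (by positivity) (by norm_num) (supDiff_le_two T S _ _ _)
  have h2 : trm x T S p = wt p * (supDiff T S (p.1 + 1) (x p.2.1) (x p.2.2) /
    (‖x p.2.1‖ * ‖x p.2.2‖)) := rfl
  rw [h2, mul_comm 2]
  exact mul_le_mul_of_nonneg_left h1 (wt_pos p).le

theorem summable_trm (x : ℕ → H) (T S : CSemi H) : Summable (trm x T S) :=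
  Summable.of_nonneg_of_le (trm_nonneg x T S) (trm_le x T S) (summable_wt.mul_left 2)

theorem le_semiDist {x : ℕ → H} (hx : ∀ j, x j ≠ 0) (T S : CSemi H) (n i j : ℕ) :
    supDiff T S (n + 1) (x i) (x j) ≤
      (‖x i‖ * ‖x j‖) / wt (n, i, j) * semiDist x T S := by
  have h1 : trm x T S (n, i, j) ≤ semiDist x T S :=
    (summable_trm x T S).le_tsum _ fun p _ => trm_nonneg x T S p
  have h2 : trm x T S (n, i, j) = wt (n, i, j) * (supDiff T S (n + 1) (x i) (x j) /
    (‖x i‖ * ‖x j‖)) := rfl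
  have h3 := wt_pos (n, i, j)
  have h4 : 0 < ‖x i‖ * ‖x j‖ := mul_pos (norm_pos_iff.2 (hx i)) (norm_pos_iff.2 (hx j))
  have h5 : supDiff T S (n + 1) (x i) (x j) =
      (‖x i‖ * ‖x j‖) / wt (n, i, j) * trm x T S (n, i, j) := by
    have h6 := norm_pos_iff.2 (hx i)
    have h7 := norm_pos_iff.2 (hx j)
    rw [h2]
    field_simp
  rw [h5]
  exact mul_le_mul_of_nonneg_left h1 (by positivity)

/-- convergence in the metric -/
theorem tendsto_semiDist {α : Type} {l : Filter α} {x : ℕ → H} (hx : ∀ j, x j ≠ 0)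
    (f : α → CSemi H) (T : CSemi H) :
    Tendsto (fun a => semiDist x (f a) T) l (𝓝 0) ↔
      ∀ n i j, Tendsto (fun a => supDiff (f a) T (n + 1) (x i) (x j)) l (𝓝 0) := by
  constructor
  · intro h n i j
    have h1 := h.const_mul ((‖x i‖ * ‖x j‖) / wt (n, i, j))
    rw [mul_zero] at h1
    exact squeeze_zero (fun a => supDiff_nonneg _ _ _ _ _) (fun a => le_semiDist hx _ _ _ _ _) h1
  · intro h
    have h1 : Tendsto (fun a => ∑' p, trm x (f a) T p) l (𝓝 (∑' _p : ℕ × ℕ × ℕ, (0 : ℝ))) := by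
      refine tendsto_tsum_of_dominated_convergence (bound := fun p => 2 * wt p)
        (summable_wt.mul_left 2) ?_ ?_
      · rintro ⟨n, i, j⟩
        have h2 := (((h n i j).div_const (‖x i‖ * ‖x j‖)).const_mul (wt (n, i, j)))
        rw [zero_div, mul_zero] at h2
        exact h2
      · refine Eventually.of_forall fun a p => ?_
        rw [Real.norm_of_nonneg (trm_nonneg x _ _ _)]
        exact trm_le x _ _ _
    rw [tsum_zero] at h1
    exact h1

theorem ext_of_dense {x : ℕ → H} (hd : DenseRange x) {T S : CSemi H}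
    (h : ∀ t i j, ⟪(T.T t - S.T t) (x i), x j⟫_ℂ = 0) : T = S := by
  have h1 : T.T = S.T := by
    funext t
    have h2 : ∀ i, (T.T t - S.T t) (x i) = 0 := by
      intro i
      have h3 : ∀ v : H, ⟪(T.T t - S.T t) (x i), v⟫_ℂ = 0 := by
        intro v
        refine hd.induction_on v (isClosed_eq (continuous_const.inner continuous_id)
          continuous_const) fun j => h t i j
      exact inner_self_eq_zero.1 (h3 _)
    ext v
    refine hd.induction_on v (isClosed_eq (ContinuousLinearMap.continuous _)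
      (ContinuousLinearMap.continuous _)) fun i => ?_
    exact sub_eq_zero.1 (h2 i)
  cases T
  cases S
  simp only at h1
  subst h1
  rfl

/-- the metric space -/
@[reducible]
def metr (x : ℕ → H) (hx : ∀ j, x j ≠ 0) (hd : DenseRange x) : MetricSpace (CSemi H) where
  dist := semiDist x
  dist_self T := by
    rw [semiDist_eq]
    have : ∀ p, trm x T T p = 0 := fun p => by
      unfold trm
      rw [supDiff_self, zero_div, mul_zero]
    simp only [this, tsum_zero]
  dist_comm T S := by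
    rw [semiDist_eq, semiDist_eq]
    refine tsum_congr fun p => ?_
    unfold trm
    rw [supDiff_comm]
  dist_triangle T S R := by
    rw [semiDist_eq, semiDist_eq, semiDist_eq, ← (summable_trm x T S).tsum_add (summable_trm x S R)]
    refine (summable_trm x T R).tsum_le_tsum (fun p => ?_)
      ((summable_trm x T S).add (summable_trm x S R))
    unfold trm
    rw [← mul_add, ← add_div]
    have := supDiff_triangle T S R (p.1 + 1) (x p.2.1) (x p.2.2)
    gcongr
  eq_of_dist_eq_zero {T S} h := by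
    refine ext_of_dense hd fun t i j => ?_
    obtain ⟨n, hn⟩ := exists_nat_ge t
    have h1 := le_semiDist hx T S n i j
    have h0 : semiDist x T S = 0 := h
    rw [h0, mul_zero] at h1
    have h2 := le_supDiff T S (n + 1) (x i) (x j) (t := t) (by
      push_cast
      exact hn.trans (le_add_of_nonneg_right zero_le_one))
    exact norm_le_zero_iff.1 (h2.trans h1)

end

end Pool.Agent.Q98.BS
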