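import Pool.Agent.Q98.BS.Grp
import Pool.Agent.Q98.BS.Met

set_option autoImplicit false

/-!
# The complete space of unitary groups
-/

open scoped InnerProductSpace NNReal Topology
open Filter

namespace Pool.Agent.Q98.BS

noncomputable section

variable {H : Type} [NormedAddCommGroup H] [InnerProductSpace ℂ H]

/-- the orbit families of unitary groups -/
def ZZ (x : ℕ → H) : Set (ℕ → C(ℝ, H)) := {f | ∃ V : UGroup H, ∀ i t, f i t = V.U t (x i)}

theorem isClosed_ZZ [CompleteSpace H] {x : ℕ → H} (hd : DenseRange x) : IsClosed (ZZ x) := by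
  refine isClosed_of_closure_subset fun f hf => ?_
  obtain ⟨g, hg, hgf⟩ := mem_closure_iff_seq_limit.1 hf
  choose V hV using hg
  have h1 : ∀ i t, Tendsto (fun n => (V n).U t (x i)) atTop (𝓝 (f i t)) := by
    intro i t
    have h2 := (tendsto_pi_nhds.1 hgf) i
    have h3 := ((continuous_eval_const (F := C(ℝ, H)) t).tendsto (f i)).comp h2
    refine h3.congr fun n => ?_
    exact hV n i t
  have h2 : ∀ (t : ℝ) (v : H), ∃ w, Tendsto (fun n => (V n).U t v) atTop (𝓝 w) := by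
    intro t v
    refine cauchySeq_tendsto_of_complete ?_
    rw [Metric.cauchySeq_iff]
    intro ε hε
    obtain ⟨i, hi⟩ := hd.exists_dist_lt v (by positivity : 0 < ε / 3)
    obtain ⟨N, hN⟩ := Metric.cauchySeq_iff.1 (h1 i t).cauchySeq (ε / 3) (by positivity)
    refine ⟨N, fun m hm n hn => ?_⟩
    have h3 := hN m hm n hn
    have h4 : ∀ k, dist ((V k).U t v) ((V k).U t (x i)) = dist v (x i) := by
      intro k
      rw [dist_eq_norm, ← map_sub, (V k).isom, ← dist_eq_norm]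
    calc dist ((V m).U t v) ((V n).U t v) ≤ dist ((V m).U t v) ((V m).U t (x i)) +
          dist ((V m).U t (x i)) ((V n).U t (x i)) + dist ((V n).U t (x i)) ((V n).U t v) :=
          dist_triangle4 _ _ _ _
      _ < ε := by
          rw [dist_comm ((V n).U t (x i)), h4, h4]
          linarith
  choose U hU using h2
  have hadd : ∀ t v w, U t (v + w) = U t v + U t w := by
    intro t v w
    refine tendsto_nhds_unique (hU t (v + w)) ?_
    simp only [map_add]
    exact (hU t v).add (hU t w)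
  have hsmul : ∀ t (c : ℂ) v, U t (c • v) = c • U t v := by
    intro t c v
    refine tendsto_nhds_unique (hU t (c • v)) ?_
    simp only [map_smul]
    exact (hU t v).const_smul c
  have hnorm : ∀ t v, ‖U t v‖ = ‖v‖ := by
    intro t v
    refine tendsto_nhds_unique (hU t v).norm ?_
    simp only [(V _).isom]
    exact tendsto_const_nhds
  have hfU : ∀ i t, f i t = U t (x i) := fun i t => tendsto_nhds_unique (h1 i t) (hU t (x i))
  let L : ℝ → H →ₗᵢ[ℂ] H := fun t => ⟨⟨⟨U t, hadd t⟩, hsmul t⟩, hnorm t⟩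
  have hLU : ∀ t v, (L t).toContinuousLinearMap v = U t v := fun t v => rfl
  refine ⟨⟨fun t => (L t).toContinuousLinearMap, ?_, ?_, ?_, ?_⟩, fun i t => hfU i t⟩
  · ext v
    rw [hLU]
    refine tendsto_nhds_unique (hU 0 v) ?_
    simp only [(V _).zero]
    exact tendsto_const_nhds
  · intro s t
    ext v
    show U (s + t) v = U s (U t v)
    refine tendsto_nhds_unique (hU (s + t) v) ?_
    have h3 : Tendsto (fun n => (V n).U s ((V n).U t v - U t v)) atTop (𝓝 0) := by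
      rw [tendsto_zero_iff_norm_tendsto_zero]
      simp only [(V _).isom]
      have := ((hU t v).sub (tendsto_const_nhds (x := U t v))).norm
      simpa using this
    have h4 := h3.add (hU s (U t v))
    rw [zero_add] at h4
    refine h4.congr fun n => ?_
    rw [(V n).add, ← map_add, sub_add_cancel]
    rfl
  · intro t v
    exact hnorm t v
  · intro v
    refine cont_of_dense _ hnorm (Set.range x) hd ?_ v
    rintro _ ⟨i, rfl⟩
    have : (fun t => (L t).toContinuousLinearMap (x i)) = fun t => f i t := by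
      funext t
      exact (hfU i t).symm
    rw [this]
    exact (f i).continuous

/-- finite nets among the `x j` -/
theorem exists_net {x : ℕ → H} (hd : DenseRange x) {K : Set H} (hK : IsCompact K) {δ : ℝ}
    (hδ : 0 < δ) : ∃ J : Finset ℕ, ∀ y ∈ K, ∃ j ∈ J, ‖y - x j‖ < δ := by
  obtain ⟨J, hJ⟩ := hK.elim_finite_subcover (fun j => Metric.ball (x j) δ)
    (fun j => Metric.isOpen_ball) (fun y _ => by
      obtain ⟨j, hj⟩ := hd.exists_dist_lt y hδ
      exact Set.mem_iUnion.2 ⟨j, hj⟩)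
  refine ⟨J, fun y hy => ?_⟩
  obtain ⟨j, hj, hyj⟩ := Set.mem_iUnion₂.1 (hJ hy)
  exact ⟨j, hj, by rwa [← dist_eq_norm]⟩

/-- the norm identity -/
theorem norm_sub_group (V W : UGroup H) (t : ℝ) (v : H) :
    ‖V.U t v - W.U t v‖ ^ 2 = -2 * (⟪V.U t v - W.U t v, W.U t v⟫_ℂ).re := by
  have h1 := @norm_sub_sq ℂ H _ _ _ (V.U t v) (W.U t v)
  have h2 : (⟪W.U t v, W.U t v⟫_ℂ).re = ‖v‖ ^ 2 := by
    have := @inner_self_eq_norm_sq ℂ H _ _ _ (W.U t v)
    rw [W.isom] at this
    exact this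
  rw [h1, V.isom, W.isom, inner_sub_left, Complex.sub_re, h2]
  have h3 : RCLike.re (⟪V.U t v, W.U t v⟫_ℂ) = (⟪V.U t v, W.U t v⟫_ℂ).re := rfl
  rw [h3]
  ring

/-- weak convergence implies strong convergence, nonnegative times -/
theorem strong_pos {α : Type} {l : Filter α} {x : ℕ → H} (hd : DenseRange x)
    (V : α → UGroup H) (W : UGroup H)
    (h : ∀ n i j, Tendsto (fun a => supDiff (V a).res W.res (n + 1) (x i) (x j)) l (𝓝 0))
    (i N : ℕ) {ε : ℝ} (hε : 0 < ε) :
    ∀ᶠ a in l, ∀ t : ℝ, 0 ≤ t → t ≤ N → ‖(V a).U t (x i) - W.U t (x i)‖ < ε := by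
  obtain ⟨δ, hδ, hδε⟩ : ∃ δ : ℝ, 0 < δ ∧ 2 * (δ + 2 * ‖x i‖ * δ) < ε ^ 2 := by
    refine ⟨ε ^ 2 / (4 * (1 + 2 * ‖x i‖)), by positivity, ?_⟩
    have h1 : 2 * (ε ^ 2 / (4 * (1 + 2 * ‖x i‖)) + 2 * ‖x i‖ * (ε ^ 2 / (4 * (1 + 2 * ‖x i‖)))) =
        ε ^ 2 / 2 := by
      field_simp
      ring
    rw [h1]
    have : 0 < ε ^ 2 := by positivity
    linarith
  obtain ⟨J, hJ⟩ := exists_net hd ((isCompact_Icc (a := (0 : ℝ)) (b := N)).image (W.cont (x i))) hδ
  have h1 : ∀ᶠ a in l, ∀ j ∈ J, supDiff (V a).res W.res (N + 1) (x i) (x j) < δ := by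
    rw [Filter.eventually_all_finset]
    intro j _
    exact (h N i j).eventually_lt_const hδ
  filter_upwards [h1] with a ha t ht0 htN
  obtain ⟨j, hj, hyj⟩ := hJ (W.U t (x i)) ⟨t, ⟨ht0, htN⟩, rfl⟩
  have h2 := ha j hj
  have h3 : ‖⟪(V a).U t (x i) - W.U t (x i), x j⟫_ℂ‖ < δ := by
    refine lt_of_le_of_lt ?_ h2
    have hc : ((t.toNNReal : ℝ≥0) : ℝ) = t := Real.coe_toNNReal t ht0
    have h0 : ‖⟪(V a).U ((t.toNNReal : ℝ≥0) : ℝ) (x i) - W.U ((t.toNNReal : ℝ≥0) : ℝ) (x i),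
        x j⟫_ℂ‖ ≤ supDiff (V a).res W.res (N + 1) (x i) (x j) :=
      le_supDiff (V a).res W.res (N + 1) (x i) (x j) (t := t.toNNReal) (by
        rw [← NNReal.coe_le_coe, hc]
        push_cast
        linarith)
    rwa [hc] at h0
  have h4 : ‖(V a).U t (x i) - W.U t (x i)‖ ≤ 2 * ‖x i‖ := by
    refine (norm_sub_le _ _).trans ?_
    rw [(V a).isom, W.isom]
    linarith
  have h5 : ‖⟪(V a).U t (x i) - W.U t (x i), W.U t (x i)⟫_ℂ‖ ≤ δ + 2 * ‖x i‖ * δ := by
    have h6 : W.U t (x i) = x j + (W.U t (x i) - x j) := by abel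
    have h7 : ⟪(V a).U t (x i) - W.U t (x i), W.U t (x i)⟫_ℂ =
        ⟪(V a).U t (x i) - W.U t (x i), x j⟫_ℂ +
          ⟪(V a).U t (x i) - W.U t (x i), W.U t (x i) - x j⟫_ℂ := by
      rw [← inner_add_right, ← h6]
    rw [h7]
    refine (norm_add_le _ _).trans (add_le_add h3.le ?_)
    refine (norm_inner_le_norm _ _).trans ?_
    exact mul_le_mul h4 hyj.le (norm_nonneg _) (by positivity)
  have h8 := norm_sub_group (V a) W t (x i)
  have h9 : ‖(V a).U t (x i) - W.U t (x i)‖ ^ 2 < ε ^ 2 := by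
    rw [h8]
    have := Complex.abs_re_le_norm ⟪(V a).U t (x i) - W.U t (x i), W.U t (x i)⟫_ℂ
    have h10 := neg_abs_le (⟪(V a).U t (x i) - W.U t (x i), W.U t (x i)⟫_ℂ).re
    linarith
  exact lt_of_pow_lt_pow_left₀ 2 hε.le h9

/-- weak convergence implies strong convergence, all times -/
theorem strong_all {α : Type} {l : Filter α} {x : ℕ → H} (hd : DenseRange x)
    (V : α → UGroup H) (W : UGroup H)
    (h : ∀ n i j, Tendsto (fun a => supDiff (V a).res W.res (n + 1) (x i) (x j)) l (𝓝 0))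
    (i N : ℕ) {ε : ℝ} (hε : 0 < ε) :
    ∀ᶠ a in l, ∀ t : ℝ, |t| ≤ N → ‖(V a).U t (x i) - W.U t (x i)‖ < ε := by
  obtain ⟨J, hJ⟩ := exists_net hd ((isCompact_Icc (a := (-N : ℝ)) (b := 0)).image (W.cont (x i)))
    (by positivity : 0 < ε / 4)
  have h1 : ∀ᶠ a in l, ∀ j ∈ J, ∀ t : ℝ, 0 ≤ t → t ≤ N →
      ‖(V a).U t (x j) - W.U t (x j)‖ < ε / 4 := by
    rw [Filter.eventually_all_finset]
    intro j _
    exact strong_pos hd V W h j N (by positivity)
  filter_upwards [h1, strong_pos hd V W h i N hε] with a ha hb t ht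
  rcases le_total 0 t with ht0 | ht0
  · exact hb t ht0 ((le_abs_self t).trans ht)
  · have ht1 : -N ≤ t := (abs_le.1 ht).1
    obtain ⟨j, hj, hyj⟩ := hJ (W.U t (x i)) ⟨t, ⟨ht1, ht0⟩, rfl⟩
    have h2 := ha j hj (-t) (by linarith) (by linarith)
    have h3 : ‖(V a).U t (x i) - W.U t (x i)‖ =
        ‖W.U (-t) (W.U t (x i)) - (V a).U (-t) (W.U t (x i))‖ := by
      rw [← (V a).isom (-t), map_sub, (V a).neg_apply, W.neg_apply]
    rw [h3]
    have h4 : ‖W.U (-t) (W.U t (x i)) - W.U (-t) (x j)‖ < ε / 4 := by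
      rw [← map_sub, W.isom]
      exact hyj
    have h5 : ‖(V a).U (-t) (x j) - (V a).U (-t) (W.U t (x i))‖ < ε / 4 := by
      rw [← map_sub, (V a).isom, norm_sub_rev]
      exact hyj
    have h6 : W.U (-t) (W.U t (x i)) - (V a).U (-t) (W.U t (x i)) =
        (W.U (-t) (W.U t (x i)) - W.U (-t) (x j)) + (-((V a).U (-t) (x j) - W.U (-t) (x j))) +
          ((V a).U (-t) (x j) - (V a).U (-t) (W.U t (x i))) := by abel
    rw [h6]
    have h7 := norm_add_le ((W.U (-t) (W.U t (x i)) - W.U (-t) (x j)) +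
      (-((V a).U (-t) (x j) - W.U (-t) (x j)))) ((V a).U (-t) (x j) - (V a).U (-t) (W.U t (x i)))
    have h8 := norm_add_le (W.U (-t) (W.U t (x i)) - W.U (-t) (x j))
      (-((V a).U (-t) (x j) - W.U (-t) (x j)))
    rw [norm_neg] at h8
    linarith

end

end Pool.Agent.Q98.BS
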